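import Pool.Agent.LamChoose.Data

/-! Kernel-checked facts about the data of `Pool.Agent.LamChoose.Data`. -/

namespace Pool.Agent.LamChoose

/-- `c` and `d` lie strictly on the same side of the line through `a` and `b`. -/
def side (ax ay bx by' cx cy dx dy : ℕ) : Bool :=
  (Nat.blt (ay * bx + by' * cx + cy * ax) (ax * by' + bx * cy + cx * ay) &&
    Nat.blt (ay * bx + by' * dx + dy * ax) (ax * by' + bx * dy + dx * ay)) ||
  (Nat.blt (ax * by' + bx * cy + cx * ay) (ay * bx + by' * cx + cy * ax) &&
    Nat.blt (ax * by' + bx * dy + dx * ay) (ay * bx + by' * dx + dy * ax))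

/-- `a`, `b`, `c` are not collinear. -/
def noncol (ax ay bx by' cx cy : ℕ) : Bool :=
  Nat.blt (ay * bx + by' * cx + cy * ax) (ax * by' + bx * cy + cx * ay) ||
  Nat.blt (ax * by' + bx * cy + cx * ay) (ay * bx + by' * cx + cy * ax)

/-- The test for a pair of edges. -/
def okPair (s t : Seg) : Bool :=
  (Nat.blt s.ay t.ay && (Nat.blt s.ay t.by' && (Nat.blt s.by' t.ay && Nat.blt s.by' t.by'))) ||
  ((Nat.blt t.ay s.ay && (Nat.blt t.by' s.ay && (Nat.blt t.ay s.by' && Nat.blt t.by' s.by'))) ||
  (side s.ax s.ay s.bx s.by' t.ax t.ay t.bx t.by' ||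
  (side t.ax t.ay t.bx t.by' s.ax s.ay s.bx s.by' ||
  ((Nat.beq s.u t.u && noncol s.ax s.ay s.bx s.by' t.bx t.by') ||
  ((Nat.beq s.u t.v && noncol s.ax s.ay s.bx s.by' t.ax t.ay) ||
  ((Nat.beq s.v t.u && noncol s.ax s.ay s.bx s.by' t.bx t.by') ||
  (Nat.beq s.v t.v && noncol s.ax s.ay s.bx s.by' t.ax t.ay)))))))

/-- Tests `s` against the members of a list, until the first one with `lx > s.hx`. -/
def chk (s : Seg) : List Seg → Bool
  | [] => true
  | t :: ts => Nat.blt s.hx t.lx || (okPair s t && chk s ts)

/-- Tests all pairs. -/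
def chkAll : List Seg → Bool
  | [] => true
  | s :: ss => chk s ss && chkAll ss

/-- `lx` is non-decreasing along the list. -/
def sorted : List Seg → Bool
  | [] => true
  | [_] => true
  | s :: t :: ss => Nat.ble s.lx t.lx && sorted (t :: ss)

/-- The data of a tree from left to right, followed by a list. -/
def T.app {D : Type} : T D → List D → List D
  | .l, m => m
  | .n _ d a b, m => a.app (d :: b.app m)

/-- Look up a key in a search tree. -/
def T.get {D : Type} (v : ℕ) (d0 : D) : T D → D
  | .l => d0
  | .n k d a b => bif Nat.beq v k then d else bif Nat.blt v k then a.get v d0 else b.get v d0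

/-- Position of a vertex. -/
def pos (v : ℕ) : ℕ × ℕ := posT.get v (0, 0)

/-- Edges of the template other than `(0, 1)`. -/
def cE : List (ℕ × ℕ) := [(0, 2), (0, 6), (0, 7), (0, 8), (0, 10), (0, 17), (0, 18), (1, 2),
  (1, 3), (1, 7), (1, 8), (1, 9), (1, 18), (1, 19), (2, 3), (2, 4), (2, 9), (2, 10), (3, 4),
  (3, 5), (3, 11), (3, 13), (4, 5), (4, 6), (4, 11), (4, 12), (4, 14), (4, 16), (5, 6), (5, 7),
  (5, 12), (5, 13), (5, 14), (5, 15), (6, 7), (6, 15), (6, 16), (7, 17), (7, 19), (8, 9), (8, 10),
  (9, 10), (11, 12), (11, 13), (12, 13), (14, 15), (14, 16), (15, 16), (17, 18), (17, 19),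
  (18, 19)]

/-- Vertex `j` of copy `t` of the template. -/
def pl (t j : ℕ) : ℕ :=
  if j = 0 then t / 6 else if j = 1 then (t / 6 + 1) % 3 else 3 + 18 * t + (j - 2)

/-- All edges. -/
def E : List (ℕ × ℕ) :=
  [(0, 1), (1, 2), (2, 0)] ++
    (List.range 18).flatMap fun t => cE.map fun p => (pl t p.1, pl t p.2)

/-- The list of all edges with their positions. -/
def segs : List Seg := segT.app []

theorem chkAll_segs : chkAll segs = true := by decide +kernel

theorem sorted_segs : sorted segs = true := by decide +kernel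

/-- Look up a key in a search tree. -/
def T.get? {D : Type} (v : ℕ) : T D → Option D
  | .l => none
  | .n k d a b => bif Nat.beq v k then some d else bif Nat.blt v k then a.get? v else b.get? v

/-- every edge is found in `segT` -/
def link (q : ℕ × (ℕ × ℕ)) : Bool :=
  match segT.get? q.1 with
  | some s => Nat.beq s.u q.2.1 && Nat.beq s.v q.2.2
  | none => false

theorem link_E : (idx.zip E).all link = true := by decide +kernel

theorem length_idx : idx.length = 921 := by decide +kernel

theorem length_E : E.length = 921 := by decide +kernel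

/-- the coordinates are those of the position map, and `lx`, `hx` bound the range -/
def segOk (s : Seg) : Bool :=
  decide (s.u < 327) && decide (s.v < 327) && decide (pos s.u = (s.ax, s.ay)) &&
    decide (pos s.v = (s.bx, s.by')) && decide (s.lx ≤ s.ax) && decide (s.lx ≤ s.bx) &&
    decide (s.ax ≤ s.hx) && decide (s.bx ≤ s.hx) && decide (s.u ≠ s.v)

theorem segOk_all : segs.all segOk = true := by decide +kernel

theorem inv_all : (List.range 327).all
    (fun v => decide (invT.get (8192 * (pos v).1 + (pos v).2) 0 = v)) = true := by decide +kernel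

/-- The bipartition of the neighbourhood of `h`. -/
def row (h : ℕ) : ℕ × ℕ := rowT.get h (0, 0)

/-- Check of the bipartition for the dart `(h, u)`. -/
def dartOk (a b : ℕ × ℕ) (u : ℕ) : Bool :=
  (a.1.testBit u && decide ((b.1 ||| b.2) &&& a.1 = 0)) ||
    (a.2.testBit u && !(a.1.testBit u) && decide ((b.1 ||| b.2) &&& a.2 = 0))

theorem dart_all : E.all (fun p => dartOk (row p.1) (row p.2) p.2 &&
    dartOk (row p.2) (row p.1) p.1) = true := by decide +kernel

end Pool.Agent.LamChoose
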