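import Mathlib
import Pool.Agent.LamChoose.Check

/-! Proofs about the graph of `Pool.Agent.LamChoose.Data`: its straight-line drawing is plane, its
neighbourhoods are bipartite, and the template has no list colouring with two prescribed colours. -/

namespace Pool.Agent.LamChoose

/-! ## Geometry -/

/-- Orientation of a triple of points. -/
def cross (a b c : ℝ × ℝ) : ℝ := (b.1 - a.1) * (c.2 - a.2) - (b.2 - a.2) * (c.1 - a.1)

theorem mem_seg {a b p : ℝ × ℝ} (h : p ∈ segment ℝ a b) :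
    ∃ x y : ℝ, 0 ≤ x ∧ 0 ≤ y ∧ x + y = 1 ∧ p.1 = x * a.1 + y * b.1 ∧ p.2 = x * a.2 + y * b.2 := by
  obtain ⟨x, y, hx, hy, hxy, rfl⟩ := h
  exact ⟨x, y, hx, hy, hxy, by simp, by simp⟩

theorem shared {a b c p : ℝ × ℝ} (h : cross a b c ≠ 0) (h1 : p ∈ segment ℝ a b)
    (h2 : p ∈ segment ℝ a c) : p = a := by
  obtain ⟨x, y, hx, hy, hxy, e1, e2⟩ := mem_seg h1
  obtain ⟨x', y', hx', hy', hxy', e1', e2'⟩ := mem_seg h2
  have hx1 : x = 1 - y := by linarith
  have hx1' : x' = 1 - y' := by linarith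
  subst hx1
  subst hx1'
  have k1 : y * (b.1 - a.1) = y' * (c.1 - a.1) := by linarith
  have k2 : y * (b.2 - a.2) = y' * (c.2 - a.2) := by linarith
  have k3 : y * cross a b c = 0 := by
    unfold cross
    linear_combination (c.2 - a.2) * k1 - (c.1 - a.1) * k2
  have k4 : y = 0 := by
    rcases mul_eq_zero.1 k3 with h' | h'
    · exact h'
    · exact absurd h' h
  subst k4
  ext
  · rw [e1]; ring
  · rw [e2]; ring

theorem same_side {a b c d p : ℝ × ℝ}
    (h : (0 < cross a b c ∧ 0 < cross a b d) ∨ (cross a b c < 0 ∧ cross a b d < 0))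
    (h1 : p ∈ segment ℝ a b) (h2 : p ∈ segment ℝ c d) : False := by
  obtain ⟨x, y, hx, hy, hxy, e1, e2⟩ := mem_seg h1
  obtain ⟨x', y', hx', hy', hxy', e1', e2'⟩ := mem_seg h2
  have hx1 : x = 1 - y := by linarith
  have hx1' : x' = 1 - y' := by linarith
  have k0 : cross a b p = 0 := by
    unfold cross
    rw [e1, e2, hx1]
    ring
  have k1 : cross a b p = x' * cross a b c + y' * cross a b d := by
    unfold cross
    rw [e1', e2', hx1']
    ring
  rcases h with ⟨h3, h4⟩ | ⟨h3, h4⟩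
  · rcases hx'.lt_or_eq with h5 | h5
    · have := mul_pos h5 h3
      have := mul_nonneg hy' h4.le
      linarith
    · have : y' = 1 := by linarith
      rw [← h5, this] at k1
      linarith
  · rcases hx'.lt_or_eq with h5 | h5
    · have := mul_pos h5 (neg_pos.2 h3)
      have := mul_nonneg hy' (neg_pos.2 h4).le
      linarith
    · have : y' = 1 := by linarith
      rw [← h5, this] at k1
      linarith

theorem seg_le {a b p : ℝ × ℝ} {H : ℝ} (h : p ∈ segment ℝ a b) (ha : a.1 ≤ H) (hb : b.1 ≤ H) :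
    p.1 ≤ H := by
  obtain ⟨x, y, hx, hy, hxy, e1, e2⟩ := mem_seg h
  have := mul_le_mul_of_nonneg_left ha hx
  have := mul_le_mul_of_nonneg_left hb hy
  have : x * H + y * H = H := by rw [← add_mul, hxy, one_mul]
  linarith

theorem le_seg {a b p : ℝ × ℝ} {H : ℝ} (h : p ∈ segment ℝ a b) (ha : H ≤ a.1) (hb : H ≤ b.1) :
    H ≤ p.1 := by
  obtain ⟨x, y, hx, hy, hxy, e1, e2⟩ := mem_seg h
  have := mul_le_mul_of_nonneg_left ha hx
  have := mul_le_mul_of_nonneg_left hb hy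
  have : x * H + y * H = H := by rw [← add_mul, hxy, one_mul]
  linarith

theorem ydisj {a b c d p : ℝ × ℝ} (h1 : a.2 < c.2) (h2 : a.2 < d.2) (h3 : b.2 < c.2)
    (h4 : b.2 < d.2) (hp : p ∈ segment ℝ a b) (hq : p ∈ segment ℝ c d) : False := by
  obtain ⟨x, y, hx, hy, hxy, e1, e2⟩ := mem_seg hp
  obtain ⟨x', y', hx', hy', hxy', e1', e2'⟩ := mem_seg hq
  have k1 : p.2 ≤ max a.2 b.2 := by
    have := mul_le_mul_of_nonneg_left (le_max_left a.2 b.2) hx
    have := mul_le_mul_of_nonneg_left (le_max_right a.2 b.2) hy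
    have : x * max a.2 b.2 + y * max a.2 b.2 = max a.2 b.2 := by rw [← add_mul, hxy, one_mul]
    linarith
  have k2 : min c.2 d.2 ≤ p.2 := by
    have := mul_le_mul_of_nonneg_left (min_le_left c.2 d.2) hx'
    have := mul_le_mul_of_nonneg_left (min_le_right c.2 d.2) hy'
    have : x' * min c.2 d.2 + y' * min c.2 d.2 = min c.2 d.2 := by
      rw [← add_mul, hxy', one_mul]
    linarith
  have k3 : max a.2 b.2 < min c.2 d.2 :=
    max_lt (lt_min h1 h2) (lt_min h3 h4)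
  linarith

/-! ## From the checks to geometry -/

/-- Position in the real plane. -/
noncomputable def P (v : ℕ) : ℝ × ℝ := ((pos v).1, (pos v).2)

theorem blt_iff {a b : ℕ} : Nat.blt a b = true ↔ a < b := by
  rw [Nat.blt_eq]

theorem cross_pos {ax ay bx by' cx cy : ℕ}
    (h : ay * bx + by' * cx + cy * ax < ax * by' + bx * cy + cx * ay) :
    0 < cross ((ax : ℝ), (ay : ℝ)) (bx, by') (cx, cy) := by
  have h' : ((ay * bx + by' * cx + cy * ax : ℕ) : ℝ) < ((ax * by' + bx * cy + cx * ay : ℕ) : ℝ) :=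
    by exact_mod_cast h
  push_cast at h'
  unfold cross
  simp only
  nlinarith [h']

theorem cross_neg {ax ay bx by' cx cy : ℕ}
    (h : ax * by' + bx * cy + cx * ay < ay * bx + by' * cx + cy * ax) :
    cross ((ax : ℝ), (ay : ℝ)) (bx, by') (cx, cy) < 0 := by
  have h' : ((ax * by' + bx * cy + cx * ay : ℕ) : ℝ) < ((ay * bx + by' * cx + cy * ax : ℕ) : ℝ) :=
    by exact_mod_cast h
  push_cast at h'
  unfold cross
  simp only
  nlinarith [h']

theorem side_spec {ax ay bx by' cx cy dx dy : ℕ} (h : side ax ay bx by' cx cy dx dy = true)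
    {p : ℝ × ℝ} (h1 : p ∈ segment ℝ ((ax : ℝ), (ay : ℝ)) (bx, by'))
    (h2 : p ∈ segment ℝ ((cx : ℝ), (cy : ℝ)) (dx, dy)) : False := by
  unfold side at h
  rw [Bool.or_eq_true, Bool.and_eq_true, Bool.and_eq_true, blt_iff, blt_iff, blt_iff, blt_iff] at h
  refine same_side ?_ h1 h2
  rcases h with ⟨h3, h4⟩ | ⟨h3, h4⟩
  · exact Or.inl ⟨cross_pos h3, cross_pos h4⟩
  · exact Or.inr ⟨cross_neg h3, cross_neg h4⟩

theorem noncol_spec {ax ay bx by' cx cy : ℕ} (h : noncol ax ay bx by' cx cy = true) :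
    cross ((ax : ℝ), (ay : ℝ)) (bx, by') (cx, cy) ≠ 0 := by
  unfold noncol at h
  rw [Bool.or_eq_true, blt_iff, blt_iff] at h
  rcases h with h | h
  · exact (cross_pos h).ne'
  · exact (cross_neg h).ne

theorem cross_swap (a b c : ℝ × ℝ) : cross b a c = - cross a b c := by
  unfold cross; ring

theorem segOk_spec {s : Seg} (h : segOk s = true) : s.u < 327 ∧ s.v < 327 ∧
    P s.u = ((s.ax : ℝ), (s.ay : ℝ)) ∧ P s.v = ((s.bx : ℝ), (s.by' : ℝ)) ∧
    s.lx ≤ s.ax ∧ s.lx ≤ s.bx ∧ s.ax ≤ s.hx ∧ s.bx ≤ s.hx ∧ s.u ≠ s.v := by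
  unfold segOk at h
  simp only [Bool.and_eq_true, decide_eq_true_eq] at h
  obtain ⟨⟨⟨⟨⟨⟨⟨⟨h1, h2⟩, h3⟩, h4⟩, h5⟩, h6⟩, h7⟩, h8⟩, h9⟩ := h
  refine ⟨h1, h2, ?_, ?_, h5, h6, h7, h8, h9⟩
  · unfold P; rw [h3]
  · unfold P; rw [h4]

/-- The conclusion we want for a pair of edges. -/
def Good (s t : Seg) : Prop :=
  s(s.u, s.v) ≠ s(t.u, t.v) → ∀ p ∈ segment ℝ (P s.u) (P s.v), p ∈ segment ℝ (P t.u) (P t.v) →
    ∃ w : ℕ, (w = s.u ∨ w = s.v) ∧ (w = t.u ∨ w = t.v) ∧ p = P w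

theorem Good.symm {s t : Seg} (h : Good s t) : Good t s := by
  intro h1 p hp hq
  obtain ⟨w, h2, h3, h4⟩ := h h1.symm p hq hp
  exact ⟨w, h3, h2, h4⟩

theorem good_of_lt {s t : Seg} (hs : segOk s = true) (ht : segOk t = true) (h : s.hx < t.lx) :
    Good s t := by
  obtain ⟨-, -, a1, a2, a3, a4, a5, a6, -⟩ := segOk_spec hs
  obtain ⟨-, -, b1, b2, b3, b4, b5, b6, -⟩ := segOk_spec ht
  intro _ p hp hq
  exfalso
  rw [a1, a2] at hp
  rw [b1, b2] at hq
  have k1 : p.1 ≤ (s.hx : ℝ) := seg_le hp (Nat.cast_le.2 a5) (Nat.cast_le.2 a6)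
  have k2 : (t.lx : ℝ) ≤ p.1 := le_seg hq (Nat.cast_le.2 b3) (Nat.cast_le.2 b4)
  have k3 : (s.hx : ℝ) < (t.lx : ℝ) := by exact_mod_cast h
  linarith

theorem good_of_okPair {s t : Seg} (hs : segOk s = true) (ht : segOk t = true)
    (h : okPair s t = true) : Good s t := by
  obtain ⟨-, -, a1, a2, a3, a4, a5, a6, -⟩ := segOk_spec hs
  obtain ⟨-, -, b1, b2, b3, b4, b5, b6, -⟩ := segOk_spec ht
  unfold okPair at h
  simp only [Bool.or_eq_true, Bool.and_eq_true, blt_iff, Nat.beq_eq] at h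
  intro _ p hp hq
  rcases h with h | h | h | h | h | h | h | h
  · exfalso
    rw [a1, a2] at hp
    rw [b1, b2] at hq
    obtain ⟨c1, c2, c3, c4⟩ := h
    exact ydisj (Nat.cast_lt.2 c1) (Nat.cast_lt.2 c2) (Nat.cast_lt.2 c3) (Nat.cast_lt.2 c4) hp hq
  · exfalso
    rw [a1, a2] at hp
    rw [b1, b2] at hq
    obtain ⟨c1, c2, c3, c4⟩ := h
    exact ydisj (Nat.cast_lt.2 c1) (Nat.cast_lt.2 c3) (Nat.cast_lt.2 c2) (Nat.cast_lt.2 c4) hq hp
  · exfalso
    rw [a1, a2] at hp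
    rw [b1, b2] at hq
    exact side_spec h hp hq
  · exfalso
    rw [a1, a2] at hp
    rw [b1, b2] at hq
    exact side_spec h hq hp
  · obtain ⟨h1, h2⟩ := h
    refine ⟨s.u, Or.inl rfl, Or.inl h1, ?_⟩
    have h3 := noncol_spec h2
    rw [← a1, ← a2, ← b2] at h3
    rw [← h1] at hq
    exact shared h3 hp hq
  · obtain ⟨h1, h2⟩ := h
    refine ⟨s.u, Or.inl rfl, Or.inr h1, ?_⟩
    have h3 := noncol_spec h2
    rw [← a1, ← a2, ← b1] at h3
    rw [← h1, segment_symm] at hq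
    exact shared h3 hp hq
  · obtain ⟨h1, h2⟩ := h
    refine ⟨s.v, Or.inr rfl, Or.inl h1, ?_⟩
    have h3 := noncol_spec h2
    rw [← a1, ← a2, ← b2] at h3
    rw [← h1] at hq
    rw [segment_symm] at hp
    refine shared (fun h4 => h3 ?_) hp hq
    rw [cross_swap, h4, neg_zero]
  · obtain ⟨h1, h2⟩ := h
    refine ⟨s.v, Or.inr rfl, Or.inr h1, ?_⟩
    have h3 := noncol_spec h2
    rw [← a1, ← a2, ← b1] at h3
    rw [← h1, segment_symm] at hq
    rw [segment_symm] at hp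
    refine shared (fun h4 => h3 ?_) hp hq
    rw [cross_swap, h4, neg_zero]

theorem sorted_pairwise : ∀ l : List Seg, sorted l = true →
    l.Pairwise (fun a b => a.lx ≤ b.lx)
  | [], _ => List.Pairwise.nil
  | [_], _ => List.pairwise_singleton _ _
  | s :: t :: ss, h => by
    unfold sorted at h
    rw [Bool.and_eq_true, Nat.ble_eq] at h
    have ih := sorted_pairwise (t :: ss) h.2
    refine List.pairwise_cons.2 ⟨fun b hb => ?_, ih⟩
    rcases List.mem_cons.1 hb with rfl | hb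
    · exact h.1
    · exact h.1.trans ((List.pairwise_cons.1 ih).1 b hb)

theorem chk_mem {s : Seg} : ∀ l : List Seg, chk s l = true →
    l.Pairwise (fun a b => a.lx ≤ b.lx) → ∀ t ∈ l, s.hx < t.lx ∨ okPair s t = true
  | [], _, _ => fun t ht => absurd ht List.not_mem_nil
  | t :: ts, h, hp => by
    unfold chk at h
    rw [Bool.or_eq_true, Bool.and_eq_true, blt_iff] at h
    obtain ⟨hp1, hp2⟩ := List.pairwise_cons.1 hp
    intro b hb
    rcases h with h | h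
    · rcases List.mem_cons.1 hb with rfl | hb
      · exact Or.inl h
      · exact Or.inl (h.trans_le (hp1 b hb))
    · rcases List.mem_cons.1 hb with rfl | hb
      · exact Or.inr h.1
      · exact chk_mem ts h.2 hp2 b hb

theorem chkAll_pairwise : ∀ l : List Seg, chkAll l = true →
    l.Pairwise (fun a b => a.lx ≤ b.lx) → (∀ t ∈ l, segOk t = true) → l.Pairwise Good
  | [], _, _, _ => List.Pairwise.nil
  | s :: ss, h, hp, hok => by
    unfold chkAll at h
    rw [Bool.and_eq_true] at h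
    obtain ⟨hp1, hp2⟩ := List.pairwise_cons.1 hp
    refine List.pairwise_cons.2 ⟨fun b hb => ?_,
      chkAll_pairwise ss h.2 hp2 (fun t ht => hok t (List.mem_cons_of_mem _ ht))⟩
    rcases chk_mem ss h.1 hp2 b hb with h' | h'
    · exact good_of_lt (hok s List.mem_cons_self) (hok b (List.mem_cons_of_mem _ hb)) h'
    · exact good_of_okPair (hok s List.mem_cons_self) (hok b (List.mem_cons_of_mem _ hb)) h'

theorem segs_ok : ∀ t ∈ segs, segOk t = true := List.all_eq_true.1 segOk_all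

theorem good_all : ∀ s ∈ segs, ∀ t ∈ segs, Good s t := by
  have : Std.Symm Good := ⟨fun _ _ h => h.symm⟩
  intro s hs t ht
  exact List.Pairwise.forall_of_forall (fun x _ h => absurd rfl h)
    (chkAll_pairwise segs chkAll_segs (sorted_pairwise _ sorted_segs) segs_ok) hs ht

theorem mem_app {D : Type} : ∀ (t : T D) (l : List D) (x : D), x ∈ l → x ∈ t.app l
  | .l, _, _, h => h
  | .n _ d a b, l, x, h => by
    unfold T.app
    exact mem_app a _ x (List.mem_cons_of_mem _ (mem_app b l x h))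

theorem mem_of_get {D : Type} (v : ℕ) : ∀ (t : T D) (l : List D) (x : D),
    t.get? v = some x → x ∈ t.app l
  | .l, _, _, h => by simp [T.get?] at h
  | .n k d a b, l, x, h => by
    unfold T.get? at h
    unfold T.app
    cases h1 : Nat.beq v k
    · rw [h1, cond_false] at h
      cases h2 : Nat.blt v k
      · rw [h2, cond_false] at h
        exact mem_app a _ x (List.mem_cons_of_mem _ (mem_of_get v b l x h))
      · rw [h2, cond_true] at h
        exact mem_of_get v a _ x h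
    · rw [h1, cond_true] at h
      cases h
      exact mem_app a _ _ List.mem_cons_self

theorem mem_zip_right {A B : Type} : ∀ (l : List A) (m : List B), m.length ≤ l.length →
    ∀ b ∈ m, ∃ a, (a, b) ∈ l.zip m
  | _, [], _, b, hb => absurd hb List.not_mem_nil
  | [], b :: m, h, _, _ => by simp at h
  | a :: l, b' :: m, h, b, hb => by
    rcases List.mem_cons.1 hb with rfl | hb
    · exact ⟨a, by simp⟩
    · obtain ⟨a', h'⟩ := mem_zip_right l m (by simpa using h) b hb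
      exact ⟨a', by simp [h']⟩

/-- every edge of `E` occurs in `segs` -/
theorem exists_seg {p : ℕ × ℕ} (hp : p ∈ E) : ∃ s ∈ segs, s.u = p.1 ∧ s.v = p.2 := by
  obtain ⟨k, hk⟩ := mem_zip_right idx E (by rw [length_idx, length_E]) p hp
  have h1 := List.all_eq_true.1 link_E (k, p) hk
  unfold link at h1
  cases h2 : segT.get? k with
  | none => simp only [h2] at h1; exact absurd h1 (by decide)
  | some s =>
    simp only [h2] at h1
    rw [Bool.and_eq_true, Nat.beq_eq, Nat.beq_eq] at h1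
    exact ⟨s, mem_of_get k segT [] s h2, h1.1, h1.2⟩

theorem P_inj {u v : ℕ} (hu : u < 327) (hv : v < 327) (h : P u = P v) : u = v := by
  have h1 : pos u = pos v := by
    unfold P at h
    rw [Prod.mk.injEq] at h
    ext
    · exact_mod_cast h.1
    · exact_mod_cast h.2
  have h2 := List.all_eq_true.1 inv_all u (List.mem_range.2 hu)
  have h3 := List.all_eq_true.1 inv_all v (List.mem_range.2 hv)
  rw [decide_eq_true_eq] at h2 h3
  rw [← h2, ← h3, h1]

/-! ## The graph -/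

theorem E_lt {p : ℕ × ℕ} (hp : p ∈ E) : p.1 < 327 ∧ p.2 < 327 ∧ p.1 ≠ p.2 := by
  obtain ⟨s, hs, h1, h2⟩ := exists_seg hp
  have h := segOk_spec (segs_ok s hs)
  rw [h1, h2] at h
  exact ⟨h.1, h.2.1, h.2.2.2.2.2.2.2.2⟩

/-- The graph. -/
def Gr : SimpleGraph (Fin 327) where
  Adj u v := (u.1, v.1) ∈ E ∨ (v.1, u.1) ∈ E
  symm := ⟨fun _ _ h => h.symm⟩
  loopless := ⟨fun u h => by
    have h1 : (u.1, u.1) ∈ E := h.elim id id
    exact (E_lt h1).2.2 rfl⟩

theorem exists_seg_adj {a b : Fin 327} (h : Gr.Adj a b) :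
    ∃ s ∈ segs, s(s.u, s.v) = s(a.1, b.1) ∧
      segment ℝ (P s.u) (P s.v) = segment ℝ (P a.1) (P b.1) := by
  rcases h with h | h
  · obtain ⟨s, hs, h1, h2⟩ := exists_seg h
    exact ⟨s, hs, by rw [h1, h2], by rw [h1, h2]⟩
  · obtain ⟨s, hs, h1, h2⟩ := exists_seg h
    exact ⟨s, hs, by rw [h1, h2]; exact Sym2.eq_swap, by rw [h1, h2]; exact segment_symm ..⟩

theorem planar_edges (a b c d : Fin 327) (hab : Gr.Adj a b) (hcd : Gr.Adj c d)
    (hne : s(a, b) ≠ s(c, d)) (p : ℝ × ℝ) (hp : p ∈ segment ℝ (P a.1) (P b.1))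
    (hq : p ∈ segment ℝ (P c.1) (P d.1)) :
    ∃ w : Fin 327, (w = a ∨ w = b) ∧ (w = c ∨ w = d) ∧ p = P w.1 := by
  obtain ⟨s, hs, h1, h2⟩ := exists_seg_adj hab
  obtain ⟨t, ht, h3, h4⟩ := exists_seg_adj hcd
  have hne' : s(s.u, s.v) ≠ s(t.u, t.v) := by
    rw [h1, h3]
    intro h
    apply hne
    rcases Sym2.eq_iff.1 h with ⟨h5, h6⟩ | ⟨h5, h6⟩
    · rw [Fin.ext h5, Fin.ext h6]
    · rw [Fin.ext h5, Fin.ext h6]; exact Sym2.eq_swap
  obtain ⟨w, h5, h6, h7⟩ := good_all s hs t ht hne' p (h2 ▸ hp) (h4 ▸ hq)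
  have h5' : w ∈ s(a.1, b.1) := h1 ▸ Sym2.mem_iff.2 h5
  have h6' : w ∈ s(c.1, d.1) := h3 ▸ Sym2.mem_iff.2 h6
  rw [Sym2.mem_iff] at h5' h6'
  have hw : w < 327 := by
    rcases h5' with h | h
    · rw [h]; exact a.2
    · rw [h]; exact b.2
  refine ⟨⟨w, hw⟩, ?_, ?_, h7⟩
  · rcases h5' with h | h
    · exact Or.inl (Fin.ext h)
    · exact Or.inr (Fin.ext h)
  · rcases h6' with h | h
    · exact Or.inl (Fin.ext h)
    · exact Or.inr (Fin.ext h)

theorem mem_E_copy {t : ℕ} (ht : t < 18) {p : ℕ × ℕ} (hp : p ∈ cE) :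
    (pl t p.1, pl t p.2) ∈ E := by
  unfold E
  refine List.mem_append_right _ (List.mem_flatMap.2 ⟨t, List.mem_range.2 ht, ?_⟩)
  exact List.mem_map.2 ⟨p, hp, rfl⟩

theorem cE_cover : ∀ j < 20, 2 ≤ j → ∃ p ∈ cE, p.1 = j ∨ p.2 = j := by decide

theorem pl_eq {w : ℕ} (h : 3 ≤ w) : pl ((w - 3) / 18) ((w - 3) % 18 + 2) = w := by
  unfold pl
  rw [if_neg (by omega), if_neg (by omega)]
  omega

/-- no vertex is isolated -/
theorem exists_adj (w : Fin 327) : ∃ x, Gr.Adj w x := by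
  have h : ∃ p ∈ E, p.1 = w.1 ∨ p.2 = w.1 := by
    rcases Nat.lt_or_ge w.1 3 with h | h
    · have h0 : w.1 = 0 ∨ w.1 = 1 ∨ w.1 = 2 := by omega
      rcases h0 with h0 | h0 | h0
      · exact ⟨(0, 1), by simp [E], Or.inl h0.symm⟩
      · exact ⟨(0, 1), by simp [E], Or.inr h0.symm⟩
      · exact ⟨(1, 2), by simp [E], Or.inr h0.symm⟩
    · have hw := w.2
      obtain ⟨p, hp, h1⟩ := cE_cover ((w.1 - 3) % 18 + 2) (by omega) (by omega)
      refine ⟨_, mem_E_copy (t := (w.1 - 3) / 18) (by omega) hp, ?_⟩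
      rcases h1 with h1 | h1
      · left
        simp only
        rw [h1, pl_eq h]
      · right
        simp only
        rw [h1, pl_eq h]
  obtain ⟨p, hp, h1⟩ := h
  rcases h1 with h1 | h1
  · exact ⟨⟨p.2, (E_lt hp).2.1⟩, Or.inl (by rw [← h1]; exact hp)⟩
  · exact ⟨⟨p.1, (E_lt hp).1⟩, Or.inr (by rw [← h1]; exact hp)⟩

/-! ## No odd wheel -/

theorem dart_spec {h u : ℕ} (hp : (h, u) ∈ E ∨ (u, h) ∈ E) :
    dartOk (row h) (row u) u = true := by
  rcases hp with hp | hp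
  · have := List.all_eq_true.1 dart_all (h, u) hp
    rw [Bool.and_eq_true] at this
    exact this.1
  · have := List.all_eq_true.1 dart_all (u, h) hp
    rw [Bool.and_eq_true] at this
    exact this.2

/-- The colouring of the neighbourhood of `h` is proper. -/
theorem nbr_col {h u v : Fin 327} (h1 : Gr.Adj h u) (h2 : Gr.Adj h v) (h3 : Gr.Adj u v) :
    (row h.1).1.testBit u.1 ≠ (row h.1).1.testBit v.1 := by
  have d1 := dart_spec h1
  have d2 := dart_spec h2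
  have d3 := dart_spec h3
  unfold dartOk at d1 d2 d3
  simp only [Bool.or_eq_true, Bool.and_eq_true, decide_eq_true_eq, Bool.not_eq_true'] at d1 d2 d3
  have h4 : ((row u.1).1 ||| (row u.1).2).testBit v.1 = true := by
    rw [Nat.testBit_or, Bool.or_eq_true]
    rcases d3 with d3 | d3
    · exact Or.inl d3.1
    · exact Or.inr d3.1.1
  intro heq
  rcases d1 with ⟨e1, e2⟩ | ⟨⟨e1, e1'⟩, e2⟩
  · -- both in the first part
    have h5 : (((row u.1).1 ||| (row u.1).2) &&& (row h.1).1).testBit v.1 = true := by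
      rw [Nat.testBit_and, h4, ← heq, e1]; rfl
    rw [e2, Nat.zero_testBit] at h5
    exact absurd h5 (by decide)
  · rcases d2 with ⟨f1, f2⟩ | ⟨⟨f1, f1'⟩, f2⟩
    · rw [e1', f1] at heq
      exact absurd heq (by decide)
    · have h5 : (((row u.1).1 ||| (row u.1).2) &&& (row h.1).2).testBit v.1 = true := by
        rw [Nat.testBit_and, h4, f1]; rfl
      rw [e2, Nat.zero_testBit] at h5
      exact absurd h5 (by decide)

/-! ## The lists -/

/-- The six ordered pairs of colours. -/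
def prs : List (ℕ × ℕ) := [(1, 2), (1, 3), (2, 1), (2, 3), (3, 1), (3, 2)]

/-- The permutation of the colours used for the copy with index `k`. -/
def pm (k c : ℕ) : ℕ :=
  if c = 1 then (prs.getD k (1, 2)).1 else if c = 2 then (prs.getD k (1, 2)).2
  else 6 - (prs.getD k (1, 2)).1 - (prs.getD k (1, 2)).2

/-- The two middle colours of the vertices `8, …, 19` of the template. -/
def octL : List (ℕ × ℕ) := [(1, 2), (2, 3), (3, 1), (3, 1), (1, 2), (2, 3), (2, 1), (1, 3), (3, 2),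
  (3, 1), (1, 2), (2, 3)]

/-- The lists. -/
def Lst (v : ℕ) : Finset ℕ :=
  if v < 3 then {0, 1, 2, 3} else
    if (v - 3) % 18 + 2 < 8 then {0, 1, 2, 3} else
      {0, pm ((v - 3) / 18 % 6) (octL.getD ((v - 3) % 18 + 2 - 8) (1, 2)).1,
        pm ((v - 3) / 18 % 6) (octL.getD ((v - 3) % 18 + 2 - 8) (1, 2)).2, 4}

theorem Lst_low {t j : ℕ} (h2 : 2 ≤ j) (h8 : j < 8) : Lst (pl t j) = {0, 1, 2, 3} := by
  unfold Lst pl
  rw [if_neg (by omega : ¬ j = 0), if_neg (by omega : ¬ j = 1),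
    if_neg (by omega : ¬ (3 + 18 * t + (j - 2) < 3)),
    if_pos (by omega : (3 + 18 * t + (j - 2) - 3) % 18 + 2 < 8)]

theorem Lst_high {t j : ℕ} (h8 : 8 ≤ j) (h20 : j < 20) : Lst (pl t j) =
    {0, pm (t % 6) (octL.getD (j - 8) (1, 2)).1, pm (t % 6) (octL.getD (j - 8) (1, 2)).2, 4} := by
  have e1 : (3 + 18 * t + (j - 2) - 3) % 18 + 2 = j := by omega
  have e2 : (3 + 18 * t + (j - 2) - 3) / 18 = t := by omega
  unfold Lst pl
  rw [if_neg (by omega : ¬ j = 0), if_neg (by omega : ¬ j = 1),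
    if_neg (by omega : ¬ (3 + 18 * t + (j - 2) < 3)), e1, e2, if_neg (by omega : ¬ (j < 8))]

theorem Lst_card : ∀ v < 327, (Lst v).card = 4 ∧ (Lst v ∩ {0}).card = 1 ∧
    (Lst v ∩ {1, 2, 3, 4}).card = 3 ∧ Lst v ⊆ {0, 1, 2, 3, 4} := by decide +kernel

/-! ## The colouring argument -/

/-- An octahedron whose three outer vertices have the colours of its kill triple cannot be
coloured. -/
theorem octa {x y z w1 w2 w3 : ℕ} (h1 : w1 = 0 ∨ w1 = x ∨ w1 = y ∨ w1 = 4)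
    (h2 : w2 = 0 ∨ w2 = y ∨ w2 = z ∨ w2 = 4) (h3 : w3 = 0 ∨ w3 = z ∨ w3 = x ∨ w3 = 4)
    (n1 : x ≠ w1) (n2 : y ≠ w1) (n3 : y ≠ w2) (n4 : z ≠ w2) (n5 : z ≠ w3) (n6 : x ≠ w3)
    (n7 : w1 ≠ w2) (n8 : w2 ≠ w3) (n9 : w1 ≠ w3) : False := by
  omega

/-- `c1, c2, c3` is a permutation of `1, 2, 3`. -/
def Perm3 (c1 c2 c3 : ℕ) : Prop :=
  (c1 = 1 ∧ c2 = 2 ∧ c3 = 3) ∨ (c1 = 1 ∧ c2 = 3 ∧ c3 = 2) ∨
    (c1 = 2 ∧ c2 = 1 ∧ c3 = 3) ∨ (c1 = 2 ∧ c2 = 3 ∧ c3 = 1) ∨ (c1 = 3 ∧ c2 = 1 ∧ c3 = 2) ∨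
    (c1 = 3 ∧ c2 = 2 ∧ c3 = 1)

theorem four {c1 c2 c3 x : ℕ} (hc : Perm3 c1 c2 c3) (hx : x < 4) (h1 : c1 ≠ x) (h2 : c2 ≠ x)
    (h3 : x ≠ c3) : x = 0 := by
  unfold Perm3 at hc
  omega

theorem nz {c1 c2 c3 x : ℕ} (hc : Perm3 c1 c2 c3) (hx : x < 4) (h : x ≠ 0) :
    x = c1 ∨ x = c2 ∨ x = c3 := by
  unfold Perm3 at hc
  omega

/-- The template has no list colouring with `v0`, `v1` coloured `c1`, `c2`. -/
theorem template {c1 c2 c3 : ℕ} (hc : Perm3 c1 c2 c3)
    (f : ℕ → ℕ) (hf : ∀ p ∈ cE, f p.1 ≠ f p.2)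
    (h0 : f 0 = c1) (h1 : f 1 = c2) (hl : ∀ j, 2 ≤ j → j < 8 → f j < 4)
    (h8 : f 8 = 0 ∨ f 8 = c1 ∨ f 8 = c2 ∨ f 8 = 4)
    (h9 : f 9 = 0 ∨ f 9 = c2 ∨ f 9 = c3 ∨ f 9 = 4)
    (h10 : f 10 = 0 ∨ f 10 = c3 ∨ f 10 = c1 ∨ f 10 = 4)
    (h11 : f 11 = 0 ∨ f 11 = c3 ∨ f 11 = c1 ∨ f 11 = 4)
    (h12 : f 12 = 0 ∨ f 12 = c1 ∨ f 12 = c2 ∨ f 12 = 4)
    (h13 : f 13 = 0 ∨ f 13 = c2 ∨ f 13 = c3 ∨ f 13 = 4)
    (h14 : f 14 = 0 ∨ f 14 = c2 ∨ f 14 = c1 ∨ f 14 = 4)
    (h15 : f 15 = 0 ∨ f 15 = c1 ∨ f 15 = c3 ∨ f 15 = 4)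
    (h16 : f 16 = 0 ∨ f 16 = c3 ∨ f 16 = c2 ∨ f 16 = 4)
    (h17 : f 17 = 0 ∨ f 17 = c3 ∨ f 17 = c1 ∨ f 17 = 4)
    (h18 : f 18 = 0 ∨ f 18 = c1 ∨ f 18 = c2 ∨ f 18 = 4)
    (h19 : f 19 = 0 ∨ f 19 = c2 ∨ f 19 = c3 ∨ f 19 = 4) : False := by
  have a : ∀ i j, (i, j) ∈ cE → f i ≠ f j := fun i j h => hf (i, j) h
  have l2 := hl 2 (by norm_num) (by norm_num)
  have l3 := hl 3 (by norm_num) (by norm_num)
  have l4 := hl 4 (by norm_num) (by norm_num)
  have l5 := hl 5 (by norm_num) (by norm_num)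
  have l6 := hl 6 (by norm_num) (by norm_num)
  have l7 := hl 7 (by norm_num) (by norm_num)
  -- the four octahedra
  have o0 : f 2 ≠ c3 := fun h => octa (x := f 0) (y := f 1) (z := f 2) (by rw [h0, h1]; exact h8)
    (by rw [h1, h]; exact h9) (by rw [h, h0]; exact h10) (a 0 8 (by decide)) (a 1 8 (by decide))
    (a 1 9 (by decide)) (a 2 9 (by decide)) (a 2 10 (by decide)) (a 0 10 (by decide))
    (a 8 9 (by decide)) (a 9 10 (by decide)) (a 8 10 (by decide))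
  have o3 : f 7 ≠ c3 := fun h => octa (x := f 7) (y := f 0) (z := f 1)
    (by rw [h, h0]; exact h17) (by rw [h0, h1]; exact h18) (by rw [h, h1]; exact h19)
    (a 7 17 (by decide)) (a 0 17 (by decide))
    (a 0 18 (by decide)) (a 1 18 (by decide)) (a 1 19 (by decide)) (a 7 19 (by decide))
    (a 17 18 (by decide)) (a 18 19 (by decide)) (a 17 19 (by decide))
  have o1 : ¬ (f 3 = c3 ∧ f 4 = c1 ∧ f 5 = c2) := fun ⟨g3, g4, g5⟩ =>
    octa (x := f 3) (y := f 4) (z := f 5)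
    (by rw [g3, g4]; exact h11) (by rw [g4, g5]; exact h12) (by rw [g5, g3]; exact h13)
    (a 3 11 (by decide)) (a 4 11 (by decide))
    (a 4 12 (by decide)) (a 5 12 (by decide)) (a 5 13 (by decide)) (a 3 13 (by decide))
    (a 11 12 (by decide)) (a 12 13 (by decide)) (a 11 13 (by decide))
  have o2 : ¬ (f 4 = c2 ∧ f 5 = c1 ∧ f 6 = c3) := fun ⟨g3, g4, g5⟩ =>
    octa (x := f 4) (y := f 5) (z := f 6)
    (by rw [g3, g4]; exact h14) (by rw [g4, g5]; exact h15) (by rw [g5, g3]; exact h16)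
    (a 4 14 (by decide)) (a 5 14 (by decide))
    (a 5 15 (by decide)) (a 6 15 (by decide)) (a 6 16 (by decide)) (a 4 16 (by decide))
    (a 14 15 (by decide)) (a 15 16 (by decide)) (a 14 16 (by decide))
  have e02 := a 0 2 (by decide)
  have e12 := a 1 2 (by decide)
  have e07 := a 0 7 (by decide)
  have e17 := a 1 7 (by decide)
  have e13 := a 1 3 (by decide)
  have e23 := a 2 3 (by decide)
  have e06 := a 0 6 (by decide)
  have e67 := a 6 7 (by decide)
  have e24 := a 2 4 (by decide)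
  have e57 := a 5 7 (by decide)
  have e34 := a 3 4 (by decide)
  have e35 := a 3 5 (by decide)
  have e45 := a 4 5 (by decide)
  have e46 := a 4 6 (by decide)
  have e56 := a 5 6 (by decide)
  clear a hf hl h8 h9 h10 h11 h12 h13 h14 h15 h16 h17 h18 h19
  rw [h0] at e02 e07 e06
  rw [h1] at e12 e17 e13
  have f2 : f 2 = 0 := four hc l2 e02 e12 o0
  have f7 : f 7 = 0 := four hc l7 e07 e17 o3
  rw [f2] at e23 e24
  rw [f7] at e67 e57
  have f3 : f 3 = c1 ∨ f 3 = c3 := by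
    rcases nz hc l3 e23.symm with h | h | h
    · exact Or.inl h
    · exact absurd h.symm e13
    · exact Or.inr h
  have f6 : f 6 = c2 ∨ f 6 = c3 := by
    rcases nz hc l6 e67 with h | h | h
    · exact absurd h.symm e06
    · exact Or.inl h
    · exact Or.inr h
  have f4 := nz hc l4 e24.symm
  have f5 := nz hc l5 e57
  clear l2 l3 l4 l5 l6 l7 h0 h1 f2 f7 o0 o3 e02 e12 e07 e17 e13 e23 e06 e67 e24 e57
  rcases f3 with f3 | f3 <;> rcases f6 with f6 | f6 <;> rcases f4 with f4 | f4 | f4 <;>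
    rcases f5 with f5 | f5 | f5 <;> simp_all

end Pool.Agent.LamChoose
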